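import Mathlib
import Pool.Agent.Y838.SP.D

set_option autoImplicit false

/-!
Quantitative form: in a Lipschitz free `p`-space, `0 < p < 1`, a bounded set which fails Kalton's
property at level `(ε, r)` contains an `ℓ_p`-sequence whose lower constant is `10^(-6/p) ε`.
-/

namespace Pool.Agent.Results.MP_1a7c10_an.KaltonDefect

open Pool.Agent.H262.FreeP

/-- The instance `(ε, r)` of Kalton's property of `W ⊆ F_p(M)`: there is a finite `E ⊆ M` with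
`W ⊆ F_p([E]_r; M) + ε B`, where `[E]_r` is the set of points at distance at most `r` from `E`.
Kalton's property is this statement for all `ε, r > 0`. -/
def KaltonAt (𝕜 : Type) [RCLike 𝕜] {M F : Type} [MetricSpace M] [AddCommGroup F] [Module 𝕜 F]
    (N : F → ℝ) (δ : M → F) (W : Set F) (ε r : ℝ) : Prop :=
  ∃ E : Finset M, ∀ x ∈ W, ∃ y : F,
    InClosedSpan 𝕜 N δ {s : M | ∃ u ∈ E, dist s u ≤ r} y ∧ N (x - y) ≤ ε

theorem kaltonProperty_iff (𝕜 : Type) [RCLike 𝕜] {M F : Type} [MetricSpace M] [AddCommGroup F]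
    [Module 𝕜 F] (N : F → ℝ) (δ : M → F) (W : Set F) :
    KaltonProperty 𝕜 N δ W ↔ ∀ ε > 0, ∀ r > 0, KaltonAt 𝕜 N δ W ε r := Iff.rfl

/-- Lipschitz free `p`-spaces in the sense of `IsFreePSpace` exist, so that `result` below is not
vacuous. -/
theorem exists_space (𝕜 : Type) [RCLike 𝕜] (p : ℝ) (hp : 0 < p) (hp1 : p < 1)
    (M : Type) [MetricSpace M] (o : M) :
    ∃ (F : Type) (_ : AddCommGroup F) (_ : Module 𝕜 F) (N : F → ℝ) (δ : M → F),
      IsFreePSpace 𝕜 p M o F N δ :=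
  Pool.Agent.H262.FP.exists_free hp hp1.le o

/-- Let `0 < p < 1`, let `M` be any metric space and let `W ⊆ F_p(M)` be a set bounded by `B`. If
`W` fails Kalton's property at some level `(ε, r)` with `ε > 0` and `r ≥ 0` (so `r = 0`, that is
`W ⊄ F_p(E) + ε B` for all finite `E`, is enough), then `W` contains a sequence `(x_k)` with
`10⁻⁶ ε^p ∑ |a_k|^p ≤ ‖∑ a_k x_k‖^p ≤ B^p ∑ |a_k|^p`. The lower constant depends neither on `M`,
nor on `r`, nor on the bound `B`. -/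
theorem result (𝕜 : Type) [RCLike 𝕜] (p : ℝ) (hp : 0 < p) (hp1 : p < 1)
    (M : Type) [MetricSpace M] (o : M) (F : Type) [AddCommGroup F] [Module 𝕜 F]
    (N : F → ℝ) (δ : M → F) (hF : IsFreePSpace 𝕜 p M o F N δ)
    (W : Set F) (B : ℝ) (hB : ∀ x ∈ W, N x ≤ B) (ε r : ℝ) (hε : 0 < ε) (hr : 0 ≤ r)
    (hW : ¬ KaltonAt 𝕜 N δ W ε r) :
    ∃ x : ℕ → F, (∀ n, x n ∈ W) ∧ ∀ (G : Finset ℕ) (a : ℕ → 𝕜),
      ε ^ p / 10 ^ 6 * ∑ k ∈ G, ‖a k‖ ^ p ≤ N (∑ k ∈ G, a k • x k) ^ p ∧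
      N (∑ k ∈ G, a k • x k) ^ p ≤ B ^ p * ∑ k ∈ G, ‖a k‖ ^ p := by
  obtain ⟨x, hx, h⟩ := Pool.Agent.Y838.SP.kaltonQ hp hp1 hF hB hε hr (by
    intro E
    unfold KaltonAt at hW
    push Not at hW
    obtain ⟨z, hz, h1⟩ := hW E
    exact ⟨z, hz, fun y hy => h1 y hy⟩)
  have hPF := Pool.Agent.H262.FP.isPFK_rpow hF.pbanach
  refine ⟨x, hx, fun G a => ⟨h G a, ?_⟩⟩
  refine (hPF.sum_le hp _ _).trans ?_
  rw [Finset.mul_sum]
  refine Finset.sum_le_sum (fun k _ => ?_)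
  have h5 := hPF.smul (a k) (x k)
  rw [h5, mul_comm]
  exact mul_le_mul_of_nonneg_right (Real.rpow_le_rpow (hF.pbanach.nonneg _) (hB _ (hx k)) hp.le)
    (Pool.Agent.H262.FP.norm_rpow_nonneg _)

end Pool.Agent.Results.MP_1a7c10_an.KaltonDefect
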